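import Mathlib
import Pool.Agent.V1187.MA.Mid

/-!
Lower bounds for the least image area of a univalent function with prescribed second
coefficient.
-/

namespace Pool.Agent.Results.MP_7b8da2_an.LowerBound

open Set Metric MeasureTheory
open Pool.Agent.V1187.MA

/-- The class `S`: analytic and injective on the open unit disc, `f 0 = 0`, `f' 0 = 1`. -/
structure ClassS (f : ℂ → ℂ) : Prop where
  diff : DifferentiableOn ℂ f (ball 0 1)
  inj : InjOn f (ball 0 1)
  zero : f 0 = 0
  one : deriv f 0 = 1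

/-- The second Taylor coefficient at the origin. -/
noncomputable def secondCoeff (f : ℂ → ℂ) : ℂ := deriv (deriv f) 0 / 2

/-- The area (Lebesgue measure) of the image of the open unit disc, in `[0, ∞]`. -/
noncomputable def area (f : ℂ → ℂ) : ENNReal := volume (f '' ball 0 1)

/-- `m(c)`: the infimum of the areas of the functions of class `S` with second coefficient `c`. -/
noncomputable def minArea (c : ℂ) : ENNReal :=
  ⨅ f ∈ {f : ℂ → ℂ | ClassS f ∧ secondCoeff f = c}, area f

lemma ClassS.toInS {f : ℂ → ℂ} (h : ClassS f) : InS f := ⟨h.diff, h.inj, h.zero, h.one⟩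

theorem result (c : ℂ) (r : ℝ) (hr : 1 < 2 * ‖c‖ * r) (hr1 : r < 1) :
    ENNReal.ofReal (Real.pi * (1 + 2 * ‖c‖ ^ 2 +
      max ((1 - r ^ 2) ^ 2 * (2 * ‖c‖ * r - 1) ^ 2) (3 * (max (‖c‖ ^ 2 - 1) 0) ^ 2))) ≤
        minArea c := by
  refine le_iInf₂ fun f hf => ?_
  have h1 : a2 f = c := hf.2
  have h2 := area_zero_free hf.1.toInS (r := r) (by rw [h1]; exact hr) hr1
  rw [h1] at h2
  rcases le_total ((1 - r ^ 2) ^ 2 * (2 * ‖c‖ * r - 1) ^ 2) (3 * (max (‖c‖ ^ 2 - 1) 0) ^ 2) with h | h
  · rw [max_eq_right h]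
    by_cases hc : 1 ≤ ‖c‖
    · have h3 := area_third hf.1.toInS (by rw [h1]; exact hc)
      rw [h1] at h3
      rw [max_eq_left (by nlinarith)]
      exact h3
    · push Not at hc
      rw [max_eq_right (by nlinarith [norm_nonneg c])]
      refine le_trans (ENNReal.ofReal_le_ofReal ?_) h2
      apply mul_le_mul_of_nonneg_left _ Real.pi_pos.le
      have : 0 ≤ (1 - r ^ 2) ^ 2 * (2 * ‖c‖ * r - 1) ^ 2 := by positivity
      linarith
  · rw [max_eq_left h]
    exact h2

end Pool.Agent.Results.MP_7b8da2_an.LowerBound
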