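import Mathlib
import Pool.Agent.V1187.MA.Up

/-!
The order of growth of the least image area of a univalent function with prescribed second
coefficient near the extreme value.
-/

namespace Pool.Agent.Results.MP_7b8da2_an.OrderAtTwo

open Set Metric MeasureTheory
open Pool.Agent.V1187.MA

/-- The class `S`: analytic and injective on the open unit disc, `f 0 = 0`, `f' 0 = 1`. -/
structure ClassS (f : ℂ → ℂ) : Prop where
  diff : DifferentiableOn ℂ f (ball 0 1)
  inj : InjOn f (ball 0 1)
  zero : f 0 = 0
  one : deriv f 0 = 1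

/-- The second Taylor coefficient at the origin. -/
noncomputable def secondCoeff (f : ℂ → ℂ) : ℂ := deriv (deriv f) 0 / 2

/-- The area (Lebesgue measure) of the image of the open unit disc, in `[0, ∞]`. -/
noncomputable def area (f : ℂ → ℂ) : ENNReal := volume (f '' ball 0 1)

/-- `m(c)`: the infimum of the areas of the functions of class `S` with second coefficient `c`. -/
noncomputable def minArea (c : ℂ) : ENNReal :=
  ⨅ f ∈ {f : ℂ → ℂ | ClassS f ∧ secondCoeff f = c}, area f

lemma ClassS.toInS {f : ℂ → ℂ} (h : ClassS f) : InS f := ⟨h.diff, h.inj, h.zero, h.one⟩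

theorem result :
    (∀ c : ℂ, ‖c‖ = 2 → minArea c = ⊤) ∧
    (∀ c : ℂ, ‖c‖ < 2 →
      ENNReal.ofReal (4 * Real.pi / (4 - ‖c‖ ^ 2) ^ 2) ≤ minArea c ∧
      minArea c ≤ ENNReal.ofReal (4 * Real.pi / (2 - ‖c‖) ^ 2)) := by
  refine ⟨?_, ?_⟩
  · intro c hc
    unfold minArea
    refine iInf₂_eq_top.2 fun f hf => ?_
    have h1 : a2 f = c := hf.2
    exact area_top hf.1.toInS (by rw [h1]; exact hc)
  · intro c hc
    constructor
    · refine le_iInf₂ fun f hf => ?_
      have h1 : a2 f = c := hf.2
      have h2 := area_cover hf.1.toInS (by rw [h1]; exact hc)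
      rw [h1] at h2
      exact h2
    · obtain ⟨f, hf, hfc, hsub⟩ := exists_small c hc
      have hmem : f ∈ {f : ℂ → ℂ | ClassS f ∧ secondCoeff f = c} :=
        ⟨⟨hf.diff, hf.inj, hf.zero, hf.one⟩, hfc⟩
      refine (iInf₂_le f hmem).trans ((measure_mono hsub).trans ?_)
      have hd : 0 < 2 - ‖c‖ := by linarith
      rw [Complex.volume_ball, ← ENNReal.ofReal_pow (by positivity)]
      rw [show (NNReal.pi : ENNReal) = ENNReal.ofReal Real.pi by
        rw [← NNReal.coe_real_pi, ENNReal.ofReal_coe_nnreal]]
      rw [← ENNReal.ofReal_mul (by positivity)]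
      apply ENNReal.ofReal_le_ofReal
      apply le_of_eq
      field_simp
      norm_num

end Pool.Agent.Results.MP_7b8da2_an.OrderAtTwo
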