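import Mathlib
import Pool.Agent.V1187.MA.Poly

/-!
An upper bound for the least image area of a univalent function with prescribed second
coefficient, close to the start of the open range.
-/

namespace Pool.Agent.Results.MP_7b8da2_an.UpperNearHalf

open Set Metric MeasureTheory
open Pool.Agent.V1187.MA

/-- The class `S`: analytic and injective on the open unit disc, `f 0 = 0`, `f' 0 = 1`. -/
structure ClassS (f : ℂ → ℂ) : Prop where
  diff : DifferentiableOn ℂ f (ball 0 1)
  inj : InjOn f (ball 0 1)
  zero : f 0 = 0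
  one : deriv f 0 = 1

/-- The second Taylor coefficient at the origin. -/
noncomputable def secondCoeff (f : ℂ → ℂ) : ℂ := deriv (deriv f) 0 / 2

/-- The area (Lebesgue measure) of the image of the open unit disc, in `[0, ∞]`. -/
noncomputable def area (f : ℂ → ℂ) : ENNReal := volume (f '' ball 0 1)

/-- `m(c)`: the infimum of the areas of the functions of class `S` with second coefficient `c`. -/
noncomputable def minArea (c : ℂ) : ENNReal :=
  ⨅ f ∈ {f : ℂ → ℂ | ClassS f ∧ secondCoeff f = c}, area f

theorem result (c : ℂ) (hc : 1 / 2 ≤ ‖c‖) (hc1 : ‖c‖ ≤ 2 / 3) :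
    minArea c ≤
      ENNReal.ofReal (Real.pi * (1 + 2 * ‖c‖ ^ 2 + (2 * ‖c‖ - 1) ^ 2 / 3)) := by
  obtain ⟨f, hf, hfc, harea⟩ := exists_cubic c hc hc1
  have hmem : f ∈ {f : ℂ → ℂ | ClassS f ∧ secondCoeff f = c} :=
    ⟨⟨hf.diff, hf.inj, hf.zero, hf.one⟩, hfc⟩
  exact (iInf₂_le f hmem).trans harea

end Pool.Agent.Results.MP_7b8da2_an.UpperNearHalf
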